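import Pool.Agent.H61.KV.TF
import Pool.Agent.H61.KV.TS

/-!
# Kuiper board KV, module NFP: the minimal faces through a point at infinity
-/

open Topology Set
open Pool.Agent.H59 Pool.Agent.H64.LB
open Pool.Agent.H61.KU Pool.Agent.H61.KV
open scoped unitInterval

namespace Pool.Agent.H59.KV.NFP

/-! ### Interior points of a cone -/

theorem int_add {T : Set F4} (hT : IsCC T) {x y : F4} (hx : x ∈ interior T) (hy : y ∈ T) :
    x + y ∈ interior T := by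
  have h1 : (fun z : F4 => z - y) ⁻¹' (interior T) ⊆ T := by
    intro z hz
    have := hT.add _ (interior_subset hz) _ hy
    simpa using this
  have h2 : IsOpen ((fun z : F4 => z - y) ⁻¹' (interior T)) :=
    isOpen_interior.preimage (continuous_id.sub continuous_const)
  refine interior_maximal h1 h2 ?_
  simpa using hx

theorem int_smul {T : Set F4} (hT : IsCC T) {x : F4} (hx : x ∈ interior T) {c : ℝ} (hc : 0 < c) :
    c • x ∈ interior T := by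
  have h1 : (fun z : F4 => c⁻¹ • z) ⁻¹' (interior T) ⊆ T := by
    intro z hz
    have := hT.smul c hc.le _ (interior_subset hz)
    simpa [smul_smul, hc.ne'] using this
  have h2 : IsOpen ((fun z : F4 => c⁻¹ • z) ⁻¹' (interior T)) :=
    isOpen_interior.preimage (continuous_const_smul c⁻¹)
  refine interior_maximal h1 h2 ?_
  simpa [smul_smul, hc.ne'] using hx

theorem int_seg {T : Set F4} {x : F4} (hx : x ∈ interior T) (v : F4) :
    ∃ δ : ℝ, 0 < δ ∧ x + δ • v ∈ T := by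
  have hc : Continuous (fun s : ℝ => x + s • v) := by fun_prop
  have h0 : (fun s : ℝ => x + s • v) ⁻¹' (interior T) ∈ 𝓝 (0 : ℝ) := by
    refine (isOpen_interior.preimage hc).mem_nhds ?_
    simpa using hx
  obtain ⟨ε, hε, hs⟩ := Metric.mem_nhds_iff.1 h0
  refine ⟨ε / 2, by positivity, interior_subset (hs ?_)⟩
  rw [Metric.mem_ball, dist_zero_right, Real.norm_eq_abs, abs_of_pos (by positivity)]
  linarith

theorem zero_not_int {T : Set F4} (hT : IsCC T) {t : F4} (ht : t ∈ T) (h0 : t ≠ 0) :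
    (0 : F4) ∉ interior T := by
  intro h
  obtain ⟨e, he⟩ := hT.pos
  obtain ⟨δ, hδ, hx⟩ := int_seg h (-t)
  rw [zero_add] at hx
  have h1 := he t ht h0
  have h2 := he _ hx (smul_ne_zero hδ.ne' (neg_ne_zero.2 h0))
  rw [map_smul, map_neg, smul_eq_mul] at h2
  nlinarith

/-! ### The face at infinity -/

section

variable {m : PN 2 → F9} {T : Set F4} {g : F4 → F4}

theorem cn_one (N : Nf m T g) (a v : F4) : (a, v, (1 : ℝ)) ∈ Cn m ↔ a - g v ∈ T := by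
  rw [N.cn]
  constructor
  · rintro (⟨-, h⟩ | ⟨h, -⟩)
    · simpa using h
    · exact absurd h one_ne_zero
  · intro h
    left
    exact ⟨one_pos, by simpa using h⟩

theorem cn_zero (N : Nf m T g) (a : F4) : (a, (0 : F4), (0 : ℝ)) ∈ Cn m ↔ a ∈ T := by
  rw [N.cn]
  constructor
  · rintro (⟨h, -⟩ | ⟨-, -, h⟩)
    · exact absurd h (lt_irrefl _)
    · exact h
  · intro h
    right
    exact ⟨rfl, rfl, h⟩

theorem cn_nonneg (N : Nf m T g) {a v : F4} {r : ℝ} (h : (a, v, r) ∈ Cn m) :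
    0 ≤ r ∧ (r = 0 → v = 0 ∧ a ∈ T) := by
  rw [N.cn] at h
  rcases h with ⟨h, -⟩ | ⟨h, h2⟩
  · exact ⟨h.le, fun h0 => absurd h0 h.ne'⟩
  · exact ⟨h.ge, fun _ => h2⟩

theorem fc_p (N : Nf m T g) (hT : IsCC T) {a₀ : F4} (ha₀ : a₀ ∈ interior T) (a v : F4) (r : ℝ) :
    (a, v, r) ∈ Fc (Cn m) (a₀, (0 : F4), (0 : ℝ)) ↔ a ∈ T ∧ v = 0 ∧ r = 0 := by
  constructor
  · rintro ⟨h1, c, -, h2⟩
    have e : c • ((a₀, (0 : F4), (0 : ℝ)) : F9) - (a, v, r) = (c • a₀ - a, -v, -r) := by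
      ext <;> simp
    rw [e] at h2
    have h3 := (cn_nonneg N h1).1
    have h4 := (cn_nonneg N h2).1
    have h5 : r = 0 := le_antisymm (by linarith) h3
    have h6 := (cn_nonneg N h1).2 h5
    exact ⟨h6.2, h6.1, h5⟩
  · rintro ⟨h1, rfl, rfl⟩
    obtain ⟨δ, hδ, hx⟩ := int_seg ha₀ (-a)
    refine ⟨(cn_zero N a).2 h1, δ⁻¹, by positivity, ?_⟩
    have e : δ⁻¹ • ((a₀, (0 : F4), (0 : ℝ)) : F9) - (a, (0 : F4), (0 : ℝ)) =
        (δ⁻¹ • (a₀ + δ • (-a)), (0 : F4), (0 : ℝ)) := by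
      refine Prod.ext ?_ (Prod.ext (by simp) (by simp))
      simp only [Prod.fst_sub, Prod.smul_fst, smul_add, smul_smul, smul_neg]
      rw [inv_mul_cancel₀ hδ.ne', one_smul, sub_eq_add_neg]
    rw [e]
    exact (cn_zero N _).2 (hT.smul _ (by positivity) _ hx)

theorem sp_p (N : Nf m T g) (hT : IsCC T) {a₀ : F4} (ha₀ : a₀ ∈ interior T) (v : F9) :
    v ∈ Sp (Cn m) (a₀, (0 : F4), (0 : ℝ)) ↔ v.2 = 0 := by
  constructor
  · intro h
    have hle : Sp (Cn m) (a₀, (0 : F4), (0 : ℝ)) ≤ LinearMap.ker (LinearMap.snd ℝ F4 (F4 × ℝ)) := by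
      refine Submodule.span_le.2 ?_
      rintro ⟨a, w, r⟩ hx
      obtain ⟨-, rfl, rfl⟩ := (fc_p N hT ha₀ a w r).1 hx
      simp
    exact LinearMap.mem_ker.1 (hle h)
  · obtain ⟨a, w⟩ := v
    intro h
    have h' : w = 0 := h
    subst h'
    obtain ⟨δ, hδ, hx⟩ := int_seg ha₀ a
    have h1 : ((a₀ + δ • a, (0 : F4 × ℝ)) : F9) ∈ Sp (Cn m) (a₀, (0 : F4), (0 : ℝ)) :=
      Submodule.subset_span ((fc_p N hT ha₀ _ _ _).2 ⟨hx, rfl, rfl⟩)
    have h2 : ((a₀, (0 : F4 × ℝ)) : F9) ∈ Sp (Cn m) (a₀, (0 : F4), (0 : ℝ)) :=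
      Submodule.subset_span ((fc_p N hT ha₀ _ _ _).2 ⟨interior_subset ha₀, rfl, rfl⟩)
    have h3 := Submodule.smul_mem _ δ⁻¹ (Submodule.sub_mem _ h1 h2)
    have e : δ⁻¹ • (((a₀ + δ • a, (0 : F4 × ℝ)) : F9) - (a₀, (0 : F4 × ℝ))) = (a, 0) := by
      refine Prod.ext ?_ (by simp)
      simp only [Prod.smul_fst, Prod.fst_sub, add_sub_cancel_left, smul_smul]
      rw [inv_mul_cancel₀ hδ.ne', one_smul]
    rwa [e] at h3

theorem foot_g (N : Nf m T g) (hT : IsCC T) {a₀ : F4} (ha₀ : a₀ ∈ interior T) (v : F4) :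
    Foot (Cn m) (a₀, (0 : F4), (0 : ℝ)) (g v, v, (1 : ℝ)) (g v, v, (1 : ℝ)) := by
  rintro ⟨a, w, r⟩
  have e : ((a, w, r) : F9) - (g v, v, (1 : ℝ)) = (a - g v, w - v, r - 1) := rfl
  rw [e, sp_p N hT ha₀, fc_p N hT ha₀]
  constructor
  · rintro ⟨h1, h2⟩
    have h3 : w - v = 0 := congrArg Prod.fst h2
    have h4 : r - 1 = 0 := congrArg Prod.snd h2
    have h5 : w = v := sub_eq_zero.1 h3
    have h6 : r = 1 := sub_eq_zero.1 h4
    subst h5 h6
    exact ⟨(cn_one N a w).1 h1, h3, h4⟩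
  · rintro ⟨h1, h3, h4⟩
    have h5 : w = v := sub_eq_zero.1 h3
    have h6 : r = 1 := sub_eq_zero.1 h4
    subst h5 h6
    exact ⟨(cn_one N a w).2 h1, Prod.ext h3 h4⟩

theorem bd_t (N : Nf m T g) (hT : IsCC T) {a₀ : F4} (ha₀ : a₀ ∈ interior T) {t : F4}
    (ht : Bo T t) : Bd (Cn m) (a₀, (0 : F4), (0 : ℝ)) (t, (0 : F4), (0 : ℝ)) := by
  obtain ⟨h1, h2, h3⟩ := ht
  refine ⟨(fc_p N hT ha₀ _ _ _).2 ⟨h1, rfl, rfl⟩, ?_, ?_⟩
  · intro h
    exact h2 (congrArg Prod.fst h)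
  · rintro ⟨-, c, hc, h⟩
    have e : c • ((t, (0 : F4), (0 : ℝ)) : F9) - (a₀, (0 : F4), (0 : ℝ)) =
        (c • t - a₀, (0 : F4), (0 : ℝ)) := by
      ext <;> simp
    rw [e, cn_zero N] at h
    have h4 : c • t ∈ interior T := by
      have := int_add hT ha₀ h
      simpa using this
    rcases hc.eq_or_lt with rfl | hc
    · rw [zero_smul] at h4
      exact zero_not_int hT h1 h2 h4
    · have h5 := int_smul hT h4 (inv_pos.2 hc)
      rw [smul_smul, inv_mul_cancel₀ hc.ne', one_smul] at h5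
      exact h3 h5

end

/-! ### A dimension count -/

theorem dim_abs {V W : Type} [AddCommGroup V] [Module ℝ V] [FiniteDimensional ℝ V]
    [AddCommGroup W] [Module ℝ W] (S : Submodule ℝ V) (h4 : Module.finrank ℝ S = 4)
    (ρ : V →ₗ[ℝ] ℝ) (φ : V →ₗ[ℝ] W) {p t : V} (hp : p ∈ S) (hp1 : ρ p = 1) (ht : t ∈ S)
    (ht0 : t ≠ 0) (htρ : ρ t = 0) (htφ : φ t = 0)
    (hS : ∀ v ∈ S, ρ v = 0 → φ v = 0 → ∃ c : ℝ, v = c • t) :
    ∃ D : Submodule ℝ W, Module.finrank ℝ D = 2 ∧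
      ∀ w, w ∈ D ↔ ∃ v ∈ S, ρ v = 0 ∧ φ v = w := by
  have hrs : Function.Surjective (ρ.domRestrict S) := by
    intro c
    refine ⟨c • ⟨p, hp⟩, ?_⟩
    rw [map_smul, LinearMap.domRestrict_apply, hp1, smul_eq_mul, mul_one]
  have h3 : Module.finrank ℝ (LinearMap.ker (ρ.domRestrict S)) = 3 := by
    have h := LinearMap.finrank_range_add_finrank_ker (ρ.domRestrict S)
    rw [LinearMap.range_eq_top.2 hrs, finrank_top, h4, Module.finrank_self] at h
    omega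
  obtain ⟨K, hK, hKm⟩ : ∃ K : Submodule ℝ V, Module.finrank ℝ K = 3 ∧
      ∀ v, v ∈ K ↔ v ∈ S ∧ ρ v = 0 := by
    refine ⟨(LinearMap.ker (ρ.domRestrict S)).map S.subtype, ?_, ?_⟩
    · rw [Submodule.finrank_map_subtype_eq, h3]
    · intro v
      rw [Submodule.mem_map]
      constructor
      · rintro ⟨⟨y, hy⟩, hy1, rfl⟩
        exact ⟨hy, LinearMap.mem_ker.1 hy1⟩
      · rintro ⟨h5, h6⟩
        exact ⟨⟨v, h5⟩, LinearMap.mem_ker.2 h6, rfl⟩
  have h1 : Module.finrank ℝ (LinearMap.ker (φ.domRestrict K)) = 1 := by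
    rw [finrank_eq_one_iff']
    refine ⟨⟨⟨t, (hKm t).2 ⟨ht, htρ⟩⟩, LinearMap.mem_ker.2 htφ⟩, ?_, ?_⟩
    · intro h
      exact ht0 (congrArg (fun z : LinearMap.ker (φ.domRestrict K) => z.1.1) h)
    · rintro ⟨⟨v, hv⟩, hv1⟩
      obtain ⟨c, hc⟩ := hS v ((hKm v).1 hv).1 ((hKm v).1 hv).2 (LinearMap.mem_ker.1 hv1)
      refine ⟨c, ?_⟩
      apply Subtype.ext
      apply Subtype.ext
      exact hc.symm
  refine ⟨LinearMap.range (φ.domRestrict K), ?_, ?_⟩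
  · have h := LinearMap.finrank_range_add_finrank_ker (φ.domRestrict K)
    rw [h1, hK] at h
    omega
  · intro w
    rw [LinearMap.mem_range]
    constructor
    · rintro ⟨⟨v, hv⟩, rfl⟩
      exact ⟨v, ((hKm v).1 hv).1, ((hKm v).1 hv).2, rfl⟩
    · rintro ⟨v, h5, h6, rfl⟩
      exact ⟨⟨v, (hKm v).2 ⟨h5, h6⟩⟩, rfl⟩

theorem dim_two (S : Submodule ℝ F9) (h4 : Module.finrank ℝ S = 4) {p : F9} (hp : p ∈ S)
    (hp1 : p.2.2 = 1) {t : F4} (ht : ((t, (0 : F4), (0 : ℝ)) : F9) ∈ S) (ht0 : t ≠ 0)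
    (hS : ∀ v ∈ S, v.2 = 0 → ∃ c : ℝ, v = c • ((t, (0 : F4), (0 : ℝ)) : F9)) :
    ∃ D : Submodule ℝ F4, Module.finrank ℝ D = 2 ∧
      ∀ w, w ∈ D ↔ ∃ a : F4, ((a, w, (0 : ℝ)) : F9) ∈ S := by
  obtain ⟨D, hD, hDm⟩ := dim_abs S h4
    ((LinearMap.snd ℝ F4 ℝ).comp (LinearMap.snd ℝ F4 (F4 × ℝ)))
    ((LinearMap.fst ℝ F4 ℝ).comp (LinearMap.snd ℝ F4 (F4 × ℝ))) hp hp1 ht
    (fun h => ht0 (congrArg Prod.fst h)) rfl rfl
    (fun v hv h5 h6 => hS v hv (Prod.ext h6 h5))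
  refine ⟨D, hD, fun w => ?_⟩
  rw [hDm]
  constructor
  · rintro ⟨⟨a, w', r'⟩, hv, h5, h6⟩
    have h5' : r' = 0 := h5
    have h6' : w' = w := h6
    subst h5' h6'
    exact ⟨a, hv⟩
  · rintro ⟨a, ha⟩
    exact ⟨_, ha, rfl, rfl⟩

/-- The module NFP. -/
theorem pf_NFP (h1 : T_FCB) (h2 : T_CNC) (h3 : T_NFS) (h4 : T_RK4) (h5 : T_MAX) (h6 : T_P1N)
    (h7 : T_SPX) (h8 : Pool.Agent.H61.KV.T_ST) (h9 : T_FTR) (h10 : T_EBD) : T_NFP := by
  intro m T g N t ht u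
  obtain ⟨hSc, hg, -⟩ := h3 m T g N
  have hT := hSc.cc
  obtain ⟨hC, hCs, -, -, -, -, -, -⟩ := h2 F9 m N.cfg
  obtain ⟨a₀, ha₀, hMs⟩ := N.ms
  have hpC : ((a₀, (0 : F4), (0 : ℝ)) : F9) ∈ Cn m := hMs.1
  have hγC : ∀ v, ((g v, v, (1 : ℝ)) : F9) ∈ Cn m := by
    intro v
    rw [cn_one N, sub_self]
    exact hT.zero
  have hγn : ∀ v, ((g v, v, (1 : ℝ)) : F9) ∉ Fc (Cn m) (a₀, (0 : F4), (0 : ℝ)) := by
    intro v h
    exact one_ne_zero ((fc_p N hT ha₀ _ _ _).1 h).2.2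
  have hF := foot_g N hT ha₀
  have hBd := bd_t N hT ha₀ ht
  have hsum : ∀ v, ((g v, v, (1 : ℝ)) : F9) + (t, (0 : F4), (0 : ℝ)) = (g v + t, v, (1 : ℝ)) := by
    intro v
    ext <;> simp
  have hMv : ∀ v, Ms m (g v + t, v, (1 : ℝ)) := by
    intro v
    rw [← hsum]
    exact h4 F9 m N.cfg N.nsg _ _ _ hMs (hF v)
      (h5 F9 m N.cfg N.nsg _ hMs _ (hγC v) (hγn v)) hBd
  have hCv : ∀ v, ((g v + t, v, (1 : ℝ)) : F9) ∈ Cn m := fun v => (hMv v).1
  have hFT : ∀ v, ((g v, v, (1 : ℝ)) : F9) ∈ Fc (Cn m) (g v + t, v, (1 : ℝ)) ∧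
      ((t, (0 : F4), (0 : ℝ)) : F9) ∈ Fc (Cn m) (g v + t, v, (1 : ℝ)) ∧
      ∀ r ∈ Fc (Cn m) (a₀, (0 : F4), (0 : ℝ)), r ∈ Fc (Cn m) (g v + t, v, (1 : ℝ)) →
        r ∈ Fc (Cn m) (t, (0 : F4), (0 : ℝ)) := by
    intro v
    have := h9 F9 (Cn m) _ _ _ hC hpC (hγC v) hBd.1 (hF v)
    rw [hsum] at this
    exact this
  obtain ⟨-, -, hray⟩ := h10 F9 m N.cfg N.nsg _ _ hMs hBd
  have hX := h7 F9 (Cn m) _ (g u + t, u, (1 : ℝ)) (t, (0 : F4), (0 : ℝ)) hC hpC (hCv u)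
    (h8 F9 m N.cfg _ hMs) (fun r hr hr' => hray r ((hFT u).2.2 r hr hr'))
  obtain ⟨hu1, hu2, hu3, hu4, hu5, hu6, hu7⟩ := h1 F9 (Cn m) _ hC (hCv u)
  obtain ⟨D, hD, hDm⟩ := dim_two (Sp (Cn m) (g u + t, u, (1 : ℝ)))
    (h6 F9 m N.cfg _ (hMv u)).1 (p := (g u + t, u, (1 : ℝ))) (Submodule.subset_span hu1) rfl
    (Submodule.subset_span (hFT u).2.1) ht.2.1
    (fun v hv hv0 => hX v ((sp_p N hT ha₀ v).2 hv0) hv)
  refine ⟨D, hD, fun w => ?_⟩
  rw [hDm]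
  constructor
  · rintro ⟨a, ha⟩
    let J : Set ℝ := {s | ((g (u + s • w), u + s • w, (1 : ℝ)) : F9) ∈
      Fc (Cn m) (g u + t, u, (1 : ℝ))}
    have hJc : IsClosed J := by
      refine hu2.closed.preimage ?_
      fun_prop
    have hJ : Icc (0 : ℝ) 1 ⊆ J := by
      refine IsClosed.Icc_subset_of_forall_exists_gt (hJc.inter isClosed_Icc) ?_ ?_
      · change ((g (u + (0 : ℝ) • w), u + (0 : ℝ) • w, (1 : ℝ)) : F9) ∈
          Fc (Cn m) (g u + t, u, (1 : ℝ))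
        rw [zero_smul, add_zero]
        exact (hFT u).1
      · rintro s ⟨hs, -⟩ y hy
        have hs' : ((g (u + s • w), u + s • w, (1 : ℝ)) : F9) ∈
          Fc (Cn m) (g u + t, u, (1 : ℝ)) := hs
        have hq : ((g (u + s • w) + t, u + s • w, (1 : ℝ)) : F9) ∈
            Fc (Cn m) (g u + t, u, (1 : ℝ)) := by
          rw [← hsum (u + s • w)]
          exact hu2.add _ hs' _ (hFT u).2.1
        obtain ⟨hv1, hv2, hv3, hv4, hv5, hv6, hv7⟩ := h1 F9 (Cn m) _ hC (hCv (u + s • w))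
        have hpu : ((g u + t, u, (1 : ℝ)) : F9) ∈
            Fc (Cn m) (g (u + s • w) + t, u + s • w, (1 : ℝ)) := by
          rcases (hMv u).2.2 _ hq with h | h
          · exact h
          · exact absurd (h hv1) (hMv (u + s • w)).2.1
        have hEq := hu7 _ hq hpu
        have haS : ((a, w, (0 : ℝ)) : F9) ∈
            Sp (Cn m) (g (u + s • w) + t, u + s • w, (1 : ℝ)) := by
          unfold Sp
          rw [hEq]
          exact ha
        obtain ⟨ε, hε, hεm⟩ := hv6 _ haS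
        have hy' : s < y := hy
        let δ : ℝ := min ε (y - s)
        have hδ : 0 < δ := lt_min hε (by linarith)
        have hm := hεm δ hδ.le (min_le_left _ _)
        rw [hEq] at hm
        refine ⟨s + δ, ?_, ?_, ?_⟩
        · have e1 : ((g (u + s • w) + t, u + s • w, (1 : ℝ)) : F9) + δ • (a, w, (0 : ℝ)) =
              (g (u + s • w) + t + δ • a, u + (s + δ) • w, (1 : ℝ)) := by
            refine Prod.ext rfl (Prod.ext ?_ ?_)
            · simp only [Prod.snd_add, Prod.fst_add, Prod.smul_snd, Prod.smul_fst, add_smul]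
              rw [add_assoc]
            · simp
          rw [e1] at hm
          have h5 := (cn_one N _ _).1 hm.1
          refine (hu3 _ (hγC (u + (s + δ) • w))
            (g (u + s • w) + t + δ • a - g (u + (s + δ) • w), (0 : F4), (0 : ℝ))
            ((cn_zero N _).2 h5) ?_).1
          have e2 : ((g (u + (s + δ) • w), u + (s + δ) • w, (1 : ℝ)) : F9) +
              (g (u + s • w) + t + δ • a - g (u + (s + δ) • w), (0 : F4), (0 : ℝ)) =
              (g (u + s • w) + t + δ • a, u + (s + δ) • w, (1 : ℝ)) := by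
            refine Prod.ext ?_ (Prod.ext ?_ ?_)
            · simp
            · simp
            · simp
          rw [e2]
          exact hm
        · linarith
        · have := min_le_right ε (y - s)
          change s + min ε (y - s) ≤ y
          linarith
    have h1J := hJ ⟨zero_le_one, le_refl _⟩
    change ((g (u + (1 : ℝ) • w), u + (1 : ℝ) • w, (1 : ℝ)) : F9) ∈
      Fc (Cn m) (g u + t, u, (1 : ℝ)) at h1J
    rwa [one_smul] at h1J
  · intro h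
    refine ⟨g (u + w) - g u, ?_⟩
    have h5 := Submodule.sub_mem (Sp (Cn m) (g u + t, u, (1 : ℝ))) (Submodule.subset_span h)
      (Submodule.subset_span (hFT u).1)
    have e : ((g (u + w), u + w, (1 : ℝ)) : F9) - (g u, u, (1 : ℝ)) =
        (g (u + w) - g u, w, (0 : ℝ)) := by
      refine Prod.ext rfl (Prod.ext ?_ ?_)
      · simp
      · simp
    rwa [e] at h5

end Pool.Agent.H59.KV.NFP
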