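import Pool.Agent.H61.KV.TN

/-!
# Kuiper board KV, module T3W: a set which misses an essential sphere
-/

open Topology Set
open Pool.Agent.H59 Pool.Agent.H64.LB Pool.Agent.H24.LB
open Pool.Agent.H61.KU Pool.Agent.H61.KV
open scoped unitInterval

namespace Pool.Agent.H59.KV.T3W

theorem map_inc_eq (hHM : T_HM) {Y : Type} [TopologicalSpace Y] (α : C(Y, NN)) :
    HH.map (ZMod 2) 2 ((inc (({q0} : Set (PN 2))ᶜ)).comp α) =
      HH.map (ZMod 2) 2 (iota.comp (rho.comp α)) := by
  refine hHM (ZMod 2) Y (PN 2) _ _ ?_ 2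
  exact inc_homotopic.comp (ContinuousMap.Homotopic.refl α)

/-- The module T3W. -/
theorem pf_T3W (hHM : T_HM) (hU : T_UU2) (hZ : T_ZER) (hK : T_KKW) : T_T3W := by
  intro α W hd ha z
  rw [map_inc_eq hHM α] at ha
  rw [map_inc_eq hHM (inc W)]
  have hsub := hU (rho.comp α) ha
  by_cases h0 : HH.map (ZMod 2) 2 (rho.comp (inc W)) = 0
  · rw [HH.map_comp, h0]
    simp
  · exfalso
    let B : C(S2 × W, ↥(DA α)) :=
      ⟨fun p => ⟨(p.1, p.2.1), fun h => hd p.1 (h ▸ p.2.2)⟩,
        (continuous_fst.prodMk (continuous_subtype_val.comp continuous_snd)).subtype_mk _⟩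
    have hB : (Prho.comp (inc (DA α))).comp B =
        (ContinuousMap.id S2).prodMap (rho.comp (inc W)) := by
      ext p
      · rfl
      · rfl
    refine hK W (rho.comp (inc W)) h0 ?_
    ext w
    rw [← hB, HH.map_comp]
    exact hZ α hsub _

end Pool.Agent.H59.KV.T3W
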